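import Mathlib
import Pool.Agent.Y90.S.Jobs

/-!
# Irreducible submodules if the endomorphism algebra is an imaginary quadratic field
-/

set_option linter.unusedSectionVars false

namespace Pool.Agent.Y31.S4

open Matrix Module Pool.Agent.W437.HC Pool.Agent.W437.HD Pool.Agent.W548.Odd Pool.Agent.TH504.CB
open Pool.Agent.Y90 Pool.Agent.Y90.S

noncomputable section

variable {g : ℕ} {Z : Matrix (Fin g) (Fin g) ℂ}
  {φ : Matrix (Fin g ⊕ Fin g) (Fin g ⊕ Fin g) ℚ} {d : ℚ} {α : ℂ}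

theorem map_symm_map (σ : ℂ ≃+* ℂ) (X : Matrix (Fin g ⊕ Fin g) (Fin g ⊕ Fin g) ℂ) :
    (X.map σ.symm).map σ = X := by
  ext i j
  simp

/-- Rational matrices commuting with the complex structure commute with the Lie algebra. -/
theorem comm_LZ {b : Matrix (Fin g ⊕ Fin g) (Fin g ⊕ Fin g) ℚ}
    (hb : qm b * DZ Z = DZ Z * qm b) : ∀ X ∈ LZ Z, X * qm b = qm b * X := by
  let C : Submodule ℂ (Matrix (Fin g ⊕ Fin g) (Fin g ⊕ Fin g) ℂ) :=
    { carrier := {X | X * qm b = qm b * X}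
      add_mem' := fun {x y} hx hy => by
        change (x + y) * qm b = qm b * (x + y)
        rw [add_mul, mul_add, hx, hy]
      zero_mem' := by
        change 0 * qm b = qm b * 0
        rw [zero_mul, mul_zero]
      smul_mem' := fun c x hx => by
        change (c • x) * qm b = qm b * (c • x)
        rw [smul_mul_assoc, mul_smul_comm, hx] }
  have h : LZ Z ≤ C := by
    refine LZ_le (fun σ => ?_) (fun A hA A' hA' => ?_)
    · change (DZ Z).map σ * qm b = qm b * (DZ Z).map σ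
      have h1 := congrArg (fun M : Matrix (Fin g ⊕ Fin g) (Fin g ⊕ Fin g) ℂ => M.map σ) hb
      simp only [Matrix.map_mul] at h1
      have h2 : (qm b).map σ = qm b := qm_aut b (σ : ℂ →+* ℂ)
      rw [h2] at h1
      exact h1.symm
    · change (A * A' - A' * A) * qm b = qm b * (A * A' - A' * A)
      have hA1 : A * qm b = qm b * A := hA
      have hA2 : A' * qm b = qm b * A' := hA'
      rw [sub_mul, mul_sub, mul_assoc, hA2, ← mul_assoc, hA1, mul_assoc A' A, hA1,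
        ← mul_assoc A', hA2, mul_assoc, mul_assoc]
  exact fun X hX => h hX

/-- The commutant of the Lie algebra. -/
theorem commutant (q : IQ Z φ d) {Y : Matrix (Fin g ⊕ Fin g) (Fin g ⊕ Fin g) ℂ}
    (hY : ∀ X ∈ LZ Z, X * Y = Y * X) : ∃ x y : ℂ, Y = x • 1 + y • qm φ := by
  let C : Submodule ℂ (Matrix (Fin g ⊕ Fin g) (Fin g ⊕ Fin g) ℂ) :=
    { carrier := {Y | ∀ X ∈ LZ Z, X * Y = Y * X}
      add_mem' := fun {a b} ha hb X hX => by rw [mul_add, add_mul, ha X hX, hb X hX]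
      zero_mem' := fun X _ => by rw [mul_zero, zero_mul]
      smul_mem' := fun c a ha X hX => by rw [mul_smul_comm, smul_mul_assoc, ha X hX] }
  have hgal : ∀ (σ : ℂ ≃+* ℂ), ∀ X ∈ C, X.map σ ∈ C := by
    intro σ Y hY X hX
    have h1 := hY _ (gal_LZ σ.symm X hX)
    have h2 := congrArg (fun M : Matrix (Fin g ⊕ Fin g) (Fin g ⊕ Fin g) ℂ => M.map σ) h1
    simp only [Matrix.map_mul] at h2
    rwa [map_symm_map] at h2
  refine rational_induction C hgal (p := fun Y => ∃ x y : ℂ, Y = x • 1 + y • qm φ)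
    ?_ ?_ ?_ ?_ Y hY
  · intro u hu
    obtain ⟨x, y, hxy⟩ := q.full u (hu _ DZ_mem).symm
    refine ⟨x, y, ?_⟩
    rw [hxy]
    ext i j
    simp only [Matrix.map_apply, Matrix.add_apply, Matrix.smul_apply, smul_eq_mul, Rat.cast_add,
      Rat.cast_mul, Matrix.one_apply]
    split_ifs <;> simp
  · exact ⟨0, 0, by rw [zero_smul, zero_smul, add_zero]⟩
  · rintro X Y ⟨x, y, rfl⟩ ⟨x', y', rfl⟩
    exact ⟨x + x', y + y', by module⟩
  · rintro c X ⟨x, y, rfl⟩
    exact ⟨c * x, c * y, by module⟩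

/-- Equivariant maps. -/
theorem commutant' (q : IQ Z φ d) (T : (Fin g ⊕ Fin g → ℂ) →ₗ[ℂ] (Fin g ⊕ Fin g → ℂ))
    (hT : ∀ X ∈ LZ Z, ∀ v, T (X *ᵥ v) = X *ᵥ T v) :
    ∃ x y : ℂ, ∀ v, T v = x • v + y • (qm φ *ᵥ v) := by
  obtain ⟨x, y, h⟩ := commutant q (Y := LinearMap.toMatrix' T) (by
    intro X hX
    apply Matrix.toLin'.injective
    refine LinearMap.ext fun v => ?_
    rw [toLin'_apply, toLin'_apply, ← mulVec_mulVec, ← mulVec_mulVec, ← toLin'_apply
      (LinearMap.toMatrix' T), ← toLin'_apply (LinearMap.toMatrix' T), toLin'_toMatrix', hT X hX])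
  refine ⟨x, y, fun v => ?_⟩
  have h1 : T v = LinearMap.toMatrix' T *ᵥ v := by
    rw [← toLin'_apply, toLin'_toMatrix']
  rw [h1, h, add_mulVec, smul_mulVec, smul_mulVec, one_mulVec]

theorem sqv (q : IQ Z φ d) (hα : α * α = -(d : ℂ)) (v : Fin g ⊕ Fin g → ℂ) :
    qm φ *ᵥ (qm φ *ᵥ v) = (α * α) • v := by
  rw [mulVec_mulVec, ← qm_mul, q.sq, hα]
  have h1 : qm (-(d • (1 : Matrix (Fin g ⊕ Fin g) (Fin g ⊕ Fin g) ℚ))) = (-(d : ℂ)) • 1 := by
    ext i j
    simp only [Matrix.map_apply, Matrix.neg_apply, Matrix.smul_apply, Matrix.one_apply, smul_eq_mul]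
    split_ifs <;> simp
  rw [h1, smul_mulVec, one_mulVec]

theorem al_ne (q : IQ Z φ d) (hα : α * α = -(d : ℂ)) : α ≠ 0 := by
  rintro rfl
  rw [mul_zero, eq_comm, neg_eq_zero] at hα
  have h2 : d = 0 := by exact_mod_cast hα
  exact q.pos.ne' h2

theorem cc_al (q : IQ Z φ d) (hα : α * α = -(d : ℂ)) : cc α = -α := by
  rcases aut_pm hα cc with h1 | h1
  · exfalso
    have h2 : α * (starRingEnd ℂ) α = (Complex.normSq α : ℂ) := Complex.mul_conj α
    have h3 : (starRingEnd ℂ) α = α := h1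
    rw [h3, hα] at h2
    have h4 : (-(d : ℝ)) = Complex.normSq α := by exact_mod_cast h2
    have h5 : (0 : ℝ) < d := by exact_mod_cast q.pos
    have h6 := Complex.normSq_nonneg α
    linarith
  · exact h1

theorem neg_sq' (hα : α * α = -(d : ℂ)) : -α * -α = -(d : ℂ) := by
  rw [neg_mul_neg, hα]

theorem pj_mem (q : IQ Z φ d) (hα : α * α = -(d : ℂ)) (v : Fin g ⊕ Fin g → ℂ) :
    pj φ α v ∈ EG φ α := by
  rw [mem_EG, pj_apply, mulVec_smul, mulVec_add, sqv q hα, mulVec_smul]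
  module

theorem pj_of_mem (q : IQ Z φ d) (hα : α * α = -(d : ℂ)) {v : Fin g ⊕ Fin g → ℂ}
    (hv : v ∈ EG φ α) : pj φ α v = v := by
  have h0 := al_ne q hα
  rw [pj_apply, mem_EG.1 hv, ← two_smul ℂ (α • v), smul_smul, smul_smul]
  have h1 : (2 * α)⁻¹ * (2 * α) = 1 := inv_mul_cancel₀ (mul_ne_zero two_ne_zero h0)
  rw [mul_assoc, h1, one_smul]

theorem pj_of_mem' {v : Fin g ⊕ Fin g → ℂ} (hv : v ∈ EG φ (-α)) : pj φ α v = 0 := by
  rw [pj_apply, mem_EG.1 hv]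
  module

theorem pj_add (q : IQ Z φ d) (hα : α * α = -(d : ℂ)) (v : Fin g ⊕ Fin g → ℂ) :
    pj φ α v + pj φ (-α) v = v := by
  have h0 := al_ne q hα
  rw [pj_apply, pj_apply]
  have h1 : (2 * -α)⁻¹ = -(2 * α)⁻¹ := by rw [mul_neg, inv_neg]
  rw [h1]
  have h2 : (2 * α)⁻¹ * (2 * α) = 1 := inv_mul_cancel₀ (mul_ne_zero two_ne_zero h0)
  have h3 : (2 * α)⁻¹ • (qm φ *ᵥ v + α • v) + -(2 * α)⁻¹ • (qm φ *ᵥ v + -α • v) =
      ((2 * α)⁻¹ * (2 * α)) • v := by module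
  rw [h3, h2, one_smul]

theorem stab_EG (q : IQ Z φ d) (α : ℂ) : Stab (LZ Z) (EG φ α) := by
  intro X hX u hu
  rw [mem_EG] at hu ⊢
  rw [mulVec_mulVec, ← comm_LZ q.comm X hX, ← mulVec_mulVec, hu, mulVec_smul]

theorem inf_EG (q : IQ Z φ d) (hα : α * α = -(d : ℂ)) : EG φ α ⊓ EG φ (-α) = ⊥ := by
  rw [eq_bot_iff]
  rintro v ⟨h1, h2⟩
  rw [Submodule.mem_bot, ← pj_of_mem q hα h1, pj_of_mem' h2]

theorem sup_EG (q : IQ Z φ d) (hα : α * α = -(d : ℂ)) : EG φ α ⊔ EG φ (-α) = ⊤ := by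
  rw [eq_top_iff]
  intro v _
  rw [← pj_add q hα v]
  exact Submodule.add_mem_sup (pj_mem q hα v) (pj_mem q (neg_sq' hα) v)

theorem cjS_EG (q : IQ Z φ d) (hα : α * α = -(d : ℂ)) : cjS cc (EG φ α) = EG φ (-α) := by
  have hq : (qm φ).map cc = qm φ := qm_aut φ (cc : ℂ →+* ℂ)
  have key : ∀ (β : ℂ) (v : Fin g ⊕ Fin g → ℂ), qm φ *ᵥ v = β • v →
      qm φ *ᵥ (fun i => cc (v i)) = cc β • fun i => cc (v i) := by
    intro β v hv
    have h1 := map_mulVec_aut cc (qm φ) v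
    rw [hq, hv] at h1
    rw [← h1]
    funext i
    exact map_mul cc _ _
  ext v
  rw [mem_cjS, mem_EG, mem_EG, cc_symm]
  constructor
  · intro h
    have h1 := key _ _ h
    have h2 : (fun i => cc (cc (v i))) = v := by
      funext i
      exact Complex.conj_conj _
    rwa [h2, cc_al q hα] at h1
  · intro h
    have h1 := key _ _ h
    rwa [map_neg, cc_al q hα, neg_neg] at h1

theorem dim_EG (q : IQ Z φ d) (hα : α * α = -(d : ℂ)) : finrank ℂ (EG φ α) = g := by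
  have h1 := Submodule.finrank_sup_add_finrank_inf_eq (EG φ α) (EG φ (-α))
  rw [sup_EG q hα, inf_EG q hα, finrank_bot, finrank_top, Module.finrank_fintype_fun_eq_card,
    Fintype.card_sum, Fintype.card_fin] at h1
  have h2 := finrank_cjS cc (EG φ α)
  rw [cjS_EG q hα] at h2
  omega

theorem EG_ne (q : IQ Z φ d) (hg : 0 < g) (hα : α * α = -(d : ℂ)) : EG φ α ≠ ⊥ := by
  intro h
  have h1 := dim_EG q hα
  rw [h, finrank_bot] at h1
  omega

/-- The eigenspaces are irreducible. -/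
theorem irr_EG (h : PM Z) (hg : 0 < g) (q : IQ Z φ d) (hα : α * α = -(d : ℂ)) :
    IrS (LZ Z) (EG φ α) := by
  refine ⟨EG_ne q hg hα, stab_EG q α, fun W hW hs => ?_⟩
  by_cases h0 : W = ⊥
  · exact Or.inl h0
  · right
    obtain ⟨π, h1, h2, h3⟩ := h.cred W hs
    obtain ⟨x, y, hxy⟩ := commutant' q π h1
    obtain ⟨w, hw, hw0⟩ := Submodule.exists_mem_ne_zero_of_ne_bot h0
    have h4 : ∀ v ∈ EG φ α, π v = (x + y * α) • v := by
      intro v hv
      rw [hxy, mem_EG.1 hv]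
      module
    have h5 : x + y * α = 1 := by
      have h6 := h4 w (hW hw)
      rw [h3 w hw] at h6
      have h7 : (x + y * α - 1) • w = 0 := by rw [sub_smul, ← h6, one_smul, sub_self]
      exact sub_eq_zero.1 ((smul_eq_zero.1 h7).resolve_right hw0)
    apply le_antisymm hW
    intro v hv
    have h6 := h4 v hv
    rw [h5, one_smul] at h6
    rw [← h6]
    exact h2 v

/-- All irreducible submodules. -/
theorem all_EG (h : PM Z) (hg : 0 < g) (q : IQ Z φ d) (hα : α * α = -(d : ℂ))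
    {U : Submodule ℂ (Fin g ⊕ Fin g → ℂ)} (hU : IrS (LZ Z) U) :
    U = EG φ α ∨ U = EG φ (-α) := by
  obtain ⟨π, h1, h2, h3⟩ := h.cred U hU.2.1
  obtain ⟨x, y, hxy⟩ := commutant' q π h1
  have h4 : ∀ β : ℂ, ∀ v ∈ EG φ β, π v = (x + y * β) • v := by
    intro β v hv
    rw [hxy, mem_EG.1 hv]
    module
  have h5 : ∀ β : ℂ, β * β = -(d : ℂ) → x + y * β ≠ 0 → U = EG φ β := by
    intro β hβ hc
    have h6 : EG φ β ≤ U := by
      intro v hv
      have h7 : v = (x + y * β)⁻¹ • π v := by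
        rw [h4 β v hv, smul_smul, inv_mul_cancel₀ hc, one_smul]
      rw [h7]
      exact U.smul_mem _ (h2 v)
    rcases hU.2.2 _ h6 (stab_EG q β) with h8 | h8
    · exact absurd h8 (EG_ne q hg hβ)
    · exact h8.symm
  by_cases hc : x + y * α = 0
  · by_cases hc' : x + y * -α = 0
    · exfalso
      apply hU.1
      rw [eq_bot_iff]
      intro v hv
      rw [Submodule.mem_bot, ← h3 v hv, ← pj_add q hα v, map_add,
        h4 α _ (pj_mem q hα v), h4 (-α) _ (pj_mem q (neg_sq' hα) v), hc, hc', zero_smul,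
        zero_smul, add_zero]
    · exact Or.inr (h5 (-α) (neg_sq' hα) hc')
  · exact Or.inl (h5 α hα hc)

/-- `φ` is not a scalar. -/
theorem not_scalar (q : IQ Z φ d) (hg : 0 < g) (c : ℚ) : φ ≠ c • 1 := by
  intro hc
  have h1 := q.sq
  rw [hc] at h1
  have h2 := congrFun (congrFun h1 (Sum.inl ⟨0, hg⟩)) (Sum.inl ⟨0, hg⟩)
  simp only [smul_mul_smul_comm, mul_one, Matrix.smul_apply, Matrix.one_apply_eq, smul_eq_mul,
    Matrix.neg_apply] at h2
  have h3 := q.pos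
  nlinarith

/-- The Rosati involution maps `φ` to `-φ`. -/
theorem rosati (h : PM Z) (hg : 0 < g) (q : IQ Z φ d) :
    φᵀ * Om g ℚ = -(Om g ℚ * φ) := by
  set O := Om g ℚ with hO
  have hOO : O * O = -1 := Om_sq ℚ
  set ψ : Matrix (Fin g ⊕ Fin g) (Fin g ⊕ Fin g) ℚ := -(O * φᵀ * O) with hψ
  have hOψ : O * ψ = φᵀ * O := by
    rw [hψ, mul_neg, ← mul_assoc, ← mul_assoc, hOO]
    simp
  have hψψ : ψ * ψ = -(d • 1) := by
    have h1 : ψ * ψ = -(O * (φ * φ)ᵀ * O) := by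
      rw [hψ, neg_mul_neg, transpose_mul]
      have h2 : O * φᵀ * O * (O * φᵀ * O) = O * φᵀ * (O * O) * φᵀ * O := by noncomm_ring
      rw [h2, hOO]
      noncomm_ring
    rw [h1, q.sq]
    simp only [transpose_neg, transpose_smul, transpose_one, mul_neg, neg_mul, neg_neg,
      mul_smul_comm, smul_mul_assoc, mul_one, hOO, smul_neg]
  -- it commutes with the complex structure
  have hsp := h.sp (DZ_mem (Z := Z))
  have hOC : (Om g ℂ) * (Om g ℂ) = -1 := Om_sq ℂ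
  have hQ := q.comm
  have hqψ : qm ψ = -(Om g ℂ * (qm φ)ᵀ * Om g ℂ) := by
    rw [hψ, qm_neg, qm_mul, qm_mul]
    have h1 : qm O = Om g ℂ := Om_map ℂ
    rw [h1]
    rfl
  have hcomm : qm ψ * DZ Z = DZ Z * qm ψ := by
    have hD1 : Om g ℂ * DZ Z = -((DZ Z)ᵀ * Om g ℂ) := by
      rw [eq_neg_iff_add_eq_zero, add_comm]
      exact hsp
    have hD2 : Om g ℂ * (DZ Z)ᵀ = -(DZ Z * Om g ℂ) := by
      have h1 : Om g ℂ * (Om g ℂ * DZ Z) * Om g ℂ = Om g ℂ * -((DZ Z)ᵀ * Om g ℂ) * Om g ℂ := by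
        rw [hD1]
      have h2 : Om g ℂ * (Om g ℂ * DZ Z) * Om g ℂ = -(DZ Z * Om g ℂ) := by
        rw [← mul_assoc, hOC]; noncomm_ring
      have h3 : Om g ℂ * -((DZ Z)ᵀ * Om g ℂ) * Om g ℂ = Om g ℂ * (DZ Z)ᵀ := by
        have h4 : Om g ℂ * -((DZ Z)ᵀ * Om g ℂ) * Om g ℂ =
            -(Om g ℂ * (DZ Z)ᵀ * (Om g ℂ * Om g ℂ)) := by noncomm_ring
        rw [h4, hOC]; noncomm_ring
      rw [h2, h3] at h1
      exact h1.symm
    have hQt : (qm φ)ᵀ * (DZ Z)ᵀ = (DZ Z)ᵀ * (qm φ)ᵀ := by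
      rw [← transpose_mul, ← transpose_mul, hQ]
    rw [hqψ, neg_mul, mul_neg]
    congr 1
    calc Om g ℂ * (qm φ)ᵀ * Om g ℂ * DZ Z = Om g ℂ * (qm φ)ᵀ * (Om g ℂ * DZ Z) := by
          rw [mul_assoc]
      _ = -(Om g ℂ * ((qm φ)ᵀ * (DZ Z)ᵀ) * Om g ℂ) := by rw [hD1]; noncomm_ring
      _ = -((Om g ℂ * (DZ Z)ᵀ) * (qm φ)ᵀ * Om g ℂ) := by rw [hQt]; noncomm_ring
      _ = DZ Z * (Om g ℂ * (qm φ)ᵀ * Om g ℂ) := by rw [hD2]; noncomm_ring
  obtain ⟨x, y, hxy⟩ := q.full ψ hcomm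
  have hpos := q.pos
  set i0 : Fin g ⊕ Fin g := Sum.inl ⟨0, hg⟩ with hi0
  -- the square
  have hsq : (x * x - d * (y * y) + d) • (1 : Matrix (Fin g ⊕ Fin g) (Fin g ⊕ Fin g) ℚ) +
      (2 * x * y) • φ = 0 := by
    have h1 := hψψ
    rw [hxy] at h1
    have h2 : (x • (1 : Matrix (Fin g ⊕ Fin g) (Fin g ⊕ Fin g) ℚ) + y • φ) * (x • 1 + y • φ) =
        (x * x) • 1 + (2 * x * y) • φ + (y * y) • (φ * φ) := by
      simp only [mul_add, add_mul, smul_mul_smul_comm, mul_one, one_mul]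
      module
    rw [h2, q.sq] at h1
    have h3 : (x * x - d * (y * y) + d) • (1 : Matrix (Fin g ⊕ Fin g) (Fin g ⊕ Fin g) ℚ) +
      (2 * x * y) • φ = ((x * x) • 1 + (2 * x * y) • φ + (y * y) • -(d • 1)) - -(d • 1) := by
      module
    rw [h3, h1, sub_self]
  have hxy0 : x * y = 0 := by
    by_contra hne
    have h2 : (2 * x * y) ≠ 0 := by
      rw [mul_assoc]
      exact mul_ne_zero two_ne_zero hne
    apply not_scalar q hg (-((2 * x * y)⁻¹ * (x * x - d * (y * y) + d)))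
    have h3 : φ = (2 * x * y)⁻¹ • ((2 * x * y) • φ) := by
      rw [smul_smul, inv_mul_cancel₀ h2, one_smul]
    have h4 : (2 * x * y) • φ =
        -((x * x - d * (y * y) + d) • (1 : Matrix (Fin g ⊕ Fin g) (Fin g ⊕ Fin g) ℚ)) :=
      eq_neg_of_add_eq_zero_right hsq
    rw [h3, h4, smul_neg, smul_smul, neg_smul]
  have hval : x * x - d * (y * y) + d = 0 := by
    have h1 : (2 * x * y) = 0 := by rw [mul_assoc, hxy0, mul_zero]
    rw [h1, zero_smul, add_zero] at hsq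
    have h2 := congrFun (congrFun hsq i0) i0
    simpa using h2
  have hx : x = 0 := by
    rcases mul_eq_zero.1 hxy0 with h1 | h1
    · exact h1
    · exfalso
      rw [h1] at hval
      nlinarith
  have hyy : y * y = 1 := by
    rw [hx] at hval
    have h1 : d * (1 - y * y) = 0 := by linarith
    rcases mul_eq_zero.1 h1 with h2 | h2
    · exact absurd h2 hpos.ne'
    · linarith
  have hy : y = 1 ∨ y = -1 := mul_self_eq_one_iff.1 hyy
  rcases hy with hy | hy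
  · exfalso
    have hφψ : ψ = φ := by rw [hxy, hx, hy, zero_smul, one_smul, zero_add]
    rw [hφψ] at hOψ
    -- real matrices
    let R : Matrix (Fin g ⊕ Fin g) (Fin g ⊕ Fin g) ℝ := φ.map (fun x : ℚ => (x : ℝ))
    have hRO : Rᵀ * Om g ℝ = Om g ℝ * R := by
      have h1 : (Om g ℚ).map (fun x : ℚ => (x : ℝ)) = Om g ℝ := Om_map ℝ
      have h2 := congrArg (fun M : Matrix (Fin g ⊕ Fin g) (Fin g ⊕ Fin g) ℚ =>
        M.map (Rat.castHom ℝ)) hOψ
      simp only [Matrix.map_mul] at h2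
      have h3 : (Om g ℚ).map (Rat.castHom ℝ) = Om g ℝ := h1
      rw [h3] at h2
      exact h2.symm
    have hRR : R * R = -((d : ℝ) • 1) := by
      have h2 := congrArg (fun M : Matrix (Fin g ⊕ Fin g) (Fin g ⊕ Fin g) ℚ =>
        M.map (Rat.castHom ℝ)) q.sq
      simp only [Matrix.map_mul] at h2
      have h3 : R * R = (-(d • (1 : Matrix (Fin g ⊕ Fin g) (Fin g ⊕ Fin g) ℚ))).map
        (Rat.castHom ℝ) := h2
      rw [h3]
      ext i j
      simp only [Matrix.map_apply, Matrix.neg_apply, Matrix.smul_apply, Matrix.one_apply,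
        smul_eq_mul]
      split_ifs <;> simp
    have hRJ : R * JR Z = JR Z * R := by
      have h1 : qm φ * (JR Z).map (fun x : ℝ => (x : ℂ)) =
          (JR Z).map (fun x : ℝ => (x : ℂ)) * qm φ := by
        have h2 := q.comm
        unfold DZ at h2
        rw [mul_smul_comm, smul_mul_assoc] at h2
        exact smul_right_injective _ (neg_ne_zero.2 Complex.I_ne_zero) h2
      have h3 : qm φ = R.map (fun x : ℝ => (x : ℂ)) := by
        ext i j
        simp [R, qm]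
      rw [h3] at h1
      have h4 : ∀ A B : Matrix (Fin g ⊕ Fin g) (Fin g ⊕ Fin g) ℝ,
          (A * B).map (fun x : ℝ => (x : ℂ)) =
          A.map (fun x : ℝ => (x : ℂ)) * B.map (fun x : ℝ => (x : ℂ)) := fun A B =>
        Matrix.map_mul (f := Complex.ofRealHom)
      rw [← h4, ← h4] at h1
      ext i j
      have h5 := congrFun (congrFun h1 i) j
      simp only [Matrix.map_apply] at h5
      exact_mod_cast h5
    have hP := OmJ_posDef h.symm h.pos
    let v : Fin g ⊕ Fin g → ℝ := Pi.single i0 1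
    have hv0 : v ≠ 0 := by
      intro h0
      have h1 := congrFun h0 i0
      simp [v] at h1
    have h1 := hP.dotProduct_mulVec_pos hv0
    rw [star_trivial] at h1
    have h2 := hP.posSemidef.dotProduct_mulVec_nonneg (R *ᵥ v)
    rw [star_trivial] at h2
    have h3 : (R *ᵥ v) ⬝ᵥ ((Om g ℝ * JR Z) *ᵥ (R *ᵥ v)) =
        -((d : ℝ) * (v ⬝ᵥ ((Om g ℝ * JR Z) *ᵥ v))) := by
      have e1 : (R *ᵥ v) ⬝ᵥ ((Om g ℝ * JR Z) *ᵥ (R *ᵥ v)) =
          v ⬝ᵥ ((Rᵀ * (Om g ℝ * JR Z) * R) *ᵥ v) := by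
        have e0 : (Rᵀ * (Om g ℝ * JR Z) * R) *ᵥ v =
            Rᵀ *ᵥ ((Om g ℝ * JR Z) *ᵥ (R *ᵥ v)) := by
          rw [mulVec_mulVec, mulVec_mulVec]
        rw [e0, dotProduct_mulVec v Rᵀ, vecMul_transpose]
      have e2 : Rᵀ * (Om g ℝ * JR Z) * R = -((d : ℝ) • (Om g ℝ * JR Z)) := by
        calc Rᵀ * (Om g ℝ * JR Z) * R = (Rᵀ * Om g ℝ) * JR Z * R := by noncomm_ring
          _ = Om g ℝ * (R * JR Z) * R := by rw [hRO]; noncomm_ring
          _ = Om g ℝ * JR Z * (R * R) := by rw [hRJ]; noncomm_ring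
          _ = _ := by
            rw [hRR, mul_neg, mul_smul_comm, mul_one]
      rw [e1, e2, neg_mulVec, smul_mulVec, dotProduct_neg, dotProduct_smul, smul_eq_mul]
    rw [h3] at h2
    have h5 : (0 : ℝ) < d := by exact_mod_cast hpos
    nlinarith [mul_pos h5 h1]
  · have hφψ : ψ = -φ := by rw [hxy, hx, hy, zero_smul, neg_smul, one_smul, zero_add]
    rw [← hOψ, hφψ, mul_neg]

theorem skew (h : PM Z) (hg : 0 < g) (q : IQ Z φ d) (u v : Fin g ⊕ Fin g → ℂ) :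
    om g (qm φ *ᵥ u) v = -om g u (qm φ *ᵥ v) := by
  have h1 : (qm φ)ᵀ * Om g ℂ = -(Om g ℂ * qm φ) := by
    have h2 : qm (φᵀ * Om g ℚ) = qm (-(Om g ℚ * φ)) := congrArg qm (rosati h hg q)
    rw [qm_mul, qm_neg, qm_mul] at h2
    have h3 : qm (Om g ℚ) = Om g ℂ := Om_map ℂ
    rw [h3] at h2
    exact h2
  rw [om_apply, om_apply, ← vecMul_transpose, ← dotProduct_mulVec, mulVec_mulVec, h1,
    neg_mulVec, dotProduct_neg, mulVec_mulVec]

theorem iso_EG (h : PM Z) (hg : 0 < g) (q : IQ Z φ d) (hα : α * α = -(d : ℂ)) :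
    ∀ u ∈ EG φ α, ∀ v ∈ EG φ α, om g u v = 0 := by
  intro u hu v hv
  have h1 := skew h hg q u v
  rw [mem_EG.1 hu, mem_EG.1 hv, map_smul, map_smul, LinearMap.smul_apply, smul_eq_mul] at h1
  have h2 : (2 * α) * om g u v = 0 := by linear_combination h1
  exact (mul_eq_zero.1 h2).resolve_left (mul_ne_zero two_ne_zero (al_ne q hα))

/-- The eigenspaces are not self-dual. -/
theorem not_sdu (h : PM Z) (hg : 0 < g) (q : IQ Z φ d) (hα : α * α = -(d : ℂ)) :
    ¬SDu Z (EG φ α) := by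
  rintro ⟨b, ⟨u, hu, v, hv, huv⟩, hb⟩
  let w : (Fin g ⊕ Fin g → ℂ) →ₗ[ℂ] (Fin g ⊕ Fin g → ℂ) :=
    LinearMap.pi fun i => (b (pj φ α (Pi.single i 1))).comp (pj φ α)
  have hw : ∀ u v, u ⬝ᵥ w v = b (pj φ α u) (pj φ α v) := by
    intro u v
    have h1 : pj φ α u = ∑ i, u i • pj φ α (Pi.single i 1) := by
      conv_lhs => rw [pi_eq_sum_univ' u, map_sum]
      refine Finset.sum_congr rfl fun i _ => ?_
      rw [map_smul]
    rw [h1, map_sum, LinearMap.sum_apply, dotProduct]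
    refine Finset.sum_congr rfl fun i _ => ?_
    rw [map_smul, LinearMap.smul_apply, smul_eq_mul]
    rfl
  let T : (Fin g ⊕ Fin g → ℂ) →ₗ[ℂ] (Fin g ⊕ Fin g → ℂ) :=
    -((Matrix.mulVecLin (Om g ℂ)).comp w)
  have hT : ∀ u v, om g u (T v) = b (pj φ α u) (pj φ α v) := by
    intro u v
    rw [← hw, om_apply]
    change u ⬝ᵥ (Om g ℂ *ᵥ (-(Om g ℂ *ᵥ w v))) = _
    rw [mulVec_neg, mulVec_mulVec, Om_sq, neg_mulVec, neg_neg, one_mulVec]
  have hpX : ∀ X ∈ LZ Z, ∀ v, pj φ α (X *ᵥ v) = X *ᵥ pj φ α v := by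
    intro X hX v
    rw [pj_apply, pj_apply, mulVec_smul, mulVec_add, mulVec_smul, mulVec_mulVec, mulVec_mulVec,
      comm_LZ q.comm X hX]
  have hTX : ∀ X ∈ LZ Z, ∀ v, T (X *ᵥ v) = X *ᵥ T v := by
    intro X hX v
    rw [← sub_eq_zero]
    have h0 : ∀ u, om g u (T (X *ᵥ v) - X *ᵥ T v) = 0 := by
      intro u
      rw [map_sub, hT, hpX X hX]
      have h1 := hb X hX _ (pj_mem q hα u) _ (pj_mem q hα v)
      have h2 := h.om_sp hX u (T v)
      rw [hT, hpX X hX] at h2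
      linear_combination h1 - h2
    refine om_nd _ fun u => ?_
    rw [om_anti, h0, neg_zero]
  obtain ⟨x, y, hxy⟩ := commutant' q T hTX
  have hiso := iso_EG h hg q hα
  have h1 := hT u v
  rw [pj_of_mem q hα hu, pj_of_mem q hα hv, hxy, mem_EG.1 hv, map_add, map_smul, map_smul,
    map_smul, hiso u hu v hv, smul_zero, smul_zero, zero_add] at h1
  rw [smul_zero] at h1
  exact huv h1.symm

theorem jiq : JIQ := by
  intro g Z h hg φ d q α hα
  exact ⟨⟨dim_EG q hα, comm_LZ q.comm, q.pos, q.sq, hα, fun v => mem_EG, iso_EG h hg q hα⟩,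
    irr_EG h hg q hα, not_sdu h hg q hα, fun U hU => all_EG h hg q hα hU⟩

end

end Pool.Agent.Y31.S4
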